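import Pool.Agent.H18.TD.Targets

/-!
# Values of the derivatives of the auxiliary polynomial (row VAL)
-/

set_option autoImplicit false

open Polynomial Module Filter Topology Pool.Agent.H18.TD

namespace Pool.Agent.H35.TD1

open Pool.Agent.H72.HR (pt dv box Grp Lie Std kap TT)

noncomputable section

/-- binomial sums -/
def bs {R : Type} [CommRing R] (θ : R) (g : ℕ → R) (τ : ℕ) : R :=
  ∑ κ ∈ Finset.range (τ + 1), (τ.choose κ : R) * θ ^ (τ - κ) * g κ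

theorem bs_succ {R : Type} [CommRing R] (θ : R) (g : ℕ → R) (τ : ℕ) :
    bs θ g (τ + 1) = bs θ (fun κ => g (κ + 1)) τ + θ * bs θ g τ := by
  unfold bs
  rw [Finset.sum_range_succ' (fun κ => ((τ + 1).choose κ : R) * θ ^ (τ + 1 - κ) * g κ) (τ + 1)]
  have h1 : ∀ κ ∈ Finset.range (τ + 1), ((τ + 1).choose (κ + 1) : R) * θ ^ (τ + 1 - (κ + 1)) *
      g (κ + 1) = (τ.choose κ : R) * θ ^ (τ - κ) * g (κ + 1) +
        (τ.choose (κ + 1) : R) * θ ^ (τ - κ) * g (κ + 1) := by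
    intro κ _
    rw [Nat.choose_succ_succ, Nat.add_sub_add_right]
    push_cast
    ring
  rw [Finset.sum_congr rfl h1, Finset.sum_add_distrib]
  have h2 : θ * ∑ κ ∈ Finset.range (τ + 1), (τ.choose κ : R) * θ ^ (τ - κ) * g κ =
      ∑ κ ∈ Finset.range (τ + 1), (τ.choose (κ + 1) : R) * θ ^ (τ - κ) * g (κ + 1) +
        θ ^ (τ + 1) * g 0 := by
    rw [Finset.sum_range_succ', Finset.sum_range_succ (fun κ => (τ.choose (κ + 1) : R) *
      θ ^ (τ - κ) * g (κ + 1)) τ, mul_add, Finset.mul_sum]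
    have h3 : ∀ κ ∈ Finset.range τ, θ * ((τ.choose (κ + 1) : R) * θ ^ (τ - (κ + 1)) * g (κ + 1)) =
        (τ.choose (κ + 1) : R) * θ ^ (τ - κ) * g (κ + 1) := by
      intro κ hκ
      rw [Finset.mem_range] at hκ
      have : τ - κ = τ - (κ + 1) + 1 := by omega
      rw [this, pow_succ]
      ring
    rw [Finset.sum_congr rfl h3]
    simp only [Nat.choose_succ_self, Nat.cast_zero, zero_mul, add_zero, Nat.choose_zero_right,
      Nat.cast_one, one_mul, Nat.sub_zero]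
    ring
  rw [h2]
  simp only [Nat.choose_zero_right, Nat.cast_one, one_mul, Nat.sub_zero]
  ring

section

variable {r l : ℕ}

/-- the monomials with falling factorials -/
def gg (μ : ℕ) (i : Fin r) (κ : ℕ) : MvPolynomial (Fin r ⊕ Fin l) ℂ :=
  MvPolynomial.C (μ.descFactorial κ : ℂ) * MvPolynomial.X (Sum.inl i) ^ (μ - κ)

/-- the factors -/
def qq (μ : ℕ) (θ : ℂ) (τ : ℕ) (i : Fin r) : MvPolynomial (Fin r ⊕ Fin l) ℂ :=
  bs (MvPolynomial.C θ) (gg μ i) τ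

theorem dv_inl (X : Matrix (Fin l) (Fin r) ℂ) (i0 i : Fin r) :
    dv kap (om X i0) (MvPolynomial.X (Sum.inl i)) =
      MvPolynomial.C (if i = i0 then (1 : ℂ) else 0) := by
  unfold dv
  rw [MvPolynomial.mkDerivation_X]
  change MvPolynomial.C ((Pi.single i0 (1 : ℂ) : Fin r → ℂ) i) = _
  rw [Pi.single_apply]

theorem dv_inr (X : Matrix (Fin l) (Fin r) ℂ) (i0 : Fin r) (a : Fin l) :
    dv kap (om X i0) (MvPolynomial.X (Sum.inr a)) =
      MvPolynomial.C (X a i0) * MvPolynomial.X (Sum.inr a) := by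
  unfold dv
  rw [MvPolynomial.mkDerivation_X]
  rfl

theorem dv_C (X : Matrix (Fin l) (Fin r) ℂ) (i0 : Fin r) (z : ℂ) :
    dv kap (om X i0) (MvPolynomial.C z) = 0 := MvPolynomial.derivation_C _ _

theorem dv_mul (X : Matrix (Fin l) (Fin r) ℂ) (i0 : Fin r)
    (a b : MvPolynomial (Fin r ⊕ Fin l) ℂ) :
    dv kap (om X i0) (a * b) = a * dv kap (om X i0) b + b * dv kap (om X i0) a := by
  rw [Derivation.leibniz, smul_eq_mul, smul_eq_mul]

theorem dv_C_mul (X : Matrix (Fin l) (Fin r) ℂ) (i0 : Fin r) (z : ℂ)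
    (b : MvPolynomial (Fin r ⊕ Fin l) ℂ) :
    dv kap (om X i0) (MvPolynomial.C z * b) = MvPolynomial.C z * dv kap (om X i0) b := by
  rw [dv_mul, dv_C, mul_zero, add_zero]

theorem dv_gg_ne (X : Matrix (Fin l) (Fin r) ℂ) (i0 i : Fin r) (h : i ≠ i0) (μ κ : ℕ) :
    dv kap (om X i0) (gg μ i κ) = 0 := by
  unfold gg
  rw [dv_C_mul, Derivation.leibniz_pow, dv_inl, if_neg h]
  simp

theorem dv_gg (X : Matrix (Fin l) (Fin r) ℂ) (i : Fin r) (μ κ : ℕ) :
    dv kap (om X i) (gg μ i κ) = gg μ i (κ + 1) := by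
  unfold gg
  rw [dv_C_mul, Derivation.leibniz_pow, dv_inl, if_pos rfl, Nat.descFactorial_succ, Nat.sub_sub]
  simp only [MvPolynomial.C_1, smul_eq_mul, mul_one, nsmul_eq_mul, Nat.cast_mul, map_mul]
  rw [show MvPolynomial.C (((μ - κ : ℕ) : ℂ)) =
    (((μ - κ : ℕ)) : MvPolynomial (Fin r ⊕ Fin l) ℂ) by simp]
  ring

theorem dv_bs (X : Matrix (Fin l) (Fin r) ℂ) (i0 : Fin r) (θ : ℂ)
    (g : ℕ → MvPolynomial (Fin r ⊕ Fin l) ℂ) (τ : ℕ) :
    dv kap (om X i0) (bs (MvPolynomial.C θ) g τ) =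
      bs (MvPolynomial.C θ) (fun κ => dv kap (om X i0) (g κ)) τ := by
  unfold bs
  rw [map_sum]
  refine Finset.sum_congr rfl fun κ _ => ?_
  have h : ((τ.choose κ : ℕ) : MvPolynomial (Fin r ⊕ Fin l) ℂ) * MvPolynomial.C θ ^ (τ - κ) =
      MvPolynomial.C ((τ.choose κ : ℂ) * θ ^ (τ - κ)) := by
    simp
  rw [h, dv_C_mul]

theorem dv_qq_ne (X : Matrix (Fin l) (Fin r) ℂ) (i0 i : Fin r) (h : i ≠ i0) (μ : ℕ) (θ : ℂ)
    (τ : ℕ) : dv kap (om X i0) (qq μ θ τ i) = 0 := by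
  unfold qq
  rw [dv_bs]
  unfold bs
  apply Finset.sum_eq_zero
  intro κ _
  change _ * dv kap (om X i0) (gg μ i κ) = 0
  rw [dv_gg_ne X i0 i h, mul_zero]

theorem dv_qq (X : Matrix (Fin l) (Fin r) ℂ) (i : Fin r) (μ : ℕ) (θ : ℂ) (τ : ℕ) :
    dv kap (om X i) (qq μ θ τ i) + MvPolynomial.C θ * qq μ θ τ i = qq μ θ (τ + 1) i := by
  unfold qq
  rw [dv_bs, bs_succ]
  congr 2
  funext κ
  exact dv_gg X i μ κ

theorem dv_prod_zero (X : Matrix (Fin l) (Fin r) ℂ) (i0 : Fin r) {ι : Type} (S : Finset ι)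
    (f : ι → MvPolynomial (Fin r ⊕ Fin l) ℂ) (h : ∀ i ∈ S, dv kap (om X i0) (f i) = 0) :
    dv kap (om X i0) (∏ i ∈ S, f i) = 0 := by
  classical
  induction S using Finset.induction_on with
  | empty =>
    rw [Finset.prod_empty, ← MvPolynomial.C_1]
    exact dv_C X i0 1
  | insert a S ha ih =>
    rw [Finset.prod_insert ha, dv_mul, ih (fun i hi => h i (Finset.mem_insert_of_mem hi)),
      h a (Finset.mem_insert_self a S)]
    ring

theorem dv_exp (X : Matrix (Fin l) (Fin r) ℂ) (i0 : Fin r) (ν : Fin l → ℕ) (S : Finset (Fin l)) :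
    dv kap (om X i0) (∏ a ∈ S, (MvPolynomial.X (Sum.inr a) : MvPolynomial (Fin r ⊕ Fin l) ℂ) ^
      ν a) =
      (MvPolynomial.C (∑ a ∈ S, (ν a : ℂ) * X a i0) : MvPolynomial (Fin r ⊕ Fin l) ℂ) *
        ∏ a ∈ S, (MvPolynomial.X (Sum.inr a) : MvPolynomial (Fin r ⊕ Fin l) ℂ) ^ ν a := by
  classical
  induction S using Finset.induction_on with
  | empty =>
    rw [Finset.prod_empty, Finset.sum_empty, ← MvPolynomial.C_1, dv_C X i0 1]
    simp
  | insert a S ha ih =>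
    rw [Finset.prod_insert ha, dv_mul, ih, Finset.sum_insert ha, Derivation.leibniz_pow, dv_inr]
    have h : (ν a) • ((MvPolynomial.X (Sum.inr a) : MvPolynomial (Fin r ⊕ Fin l) ℂ) ^ (ν a - 1) •
        ((MvPolynomial.C (X a i0) : MvPolynomial (Fin r ⊕ Fin l) ℂ) * (MvPolynomial.X (Sum.inr a) :
          MvPolynomial (Fin r ⊕ Fin l) ℂ))) =
        (MvPolynomial.C ((ν a : ℂ) * X a i0) : MvPolynomial (Fin r ⊕ Fin l) ℂ) *
          (MvPolynomial.X (Sum.inr a) : MvPolynomial (Fin r ⊕ Fin l) ℂ) ^ ν a := by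
      rcases Nat.eq_zero_or_pos (ν a) with h0 | h0
      · rw [h0]
        simp
      · obtain ⟨n, hn⟩ := Nat.exists_eq_succ_of_ne_zero (Nat.pos_iff_ne_zero.1 h0)
        rw [hn]
        simp only [Nat.succ_eq_add_one, Nat.add_sub_cancel, smul_eq_mul, nsmul_eq_mul, map_mul]
        rw [show (MvPolynomial.C (((n + 1 : ℕ) : ℂ)) : MvPolynomial (Fin r ⊕ Fin l) ℂ) =
          (((n + 1 : ℕ)) : MvPolynomial (Fin r ⊕ Fin l) ℂ) by simp]
        ring
    rw [h, MvPolynomial.C_add]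
    ring

/-- the derivatives of the monomials -/
def Qp {T0 T1 J : ℕ} (X : Matrix (Fin l) (Fin r) ℂ) (w : Un r l T0 T1 J) (τ : Fin r → ℕ) :
    MvPolynomial (Fin r ⊕ Fin l) ℂ :=
  (∏ i : Fin r, qq (w.1 i) (th X w.2.1 i) (τ i) i) *
    ∏ a : Fin l, MvPolynomial.X (Sum.inr a) ^ (w.2.1 a : ℕ)

theorem dv_Qp {T0 T1 J : ℕ} (X : Matrix (Fin l) (Fin r) ℂ) (w : Un r l T0 T1 J) (τ τ' : Fin r → ℕ)
    (i0 : Fin r) (h0 : τ' i0 = τ i0 + 1) (h1 : ∀ i, i ≠ i0 → τ' i = τ i) :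
    dv kap (om X i0) (Qp X w τ) = Qp X w τ' := by
  unfold Qp
  have e1 : ∀ τ : Fin r → ℕ, ∏ i : Fin r, (qq (w.1 i) (th X w.2.1 i) (τ i) i :
      MvPolynomial (Fin r ⊕ Fin l) ℂ) = qq (w.1 i0) (th X w.2.1 i0) (τ i0) i0 *
        ∏ i ∈ Finset.univ.erase i0, qq (w.1 i) (th X w.2.1 i) (τ i) i := fun τ =>
    (Finset.mul_prod_erase Finset.univ _ (Finset.mem_univ i0)).symm
  have e2 : ∏ i ∈ Finset.univ.erase i0, (qq (w.1 i) (th X w.2.1 i) (τ' i) i :
      MvPolynomial (Fin r ⊕ Fin l) ℂ) =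
      ∏ i ∈ Finset.univ.erase i0, qq (w.1 i) (th X w.2.1 i) (τ i) i := by
    refine Finset.prod_congr rfl fun i hi => ?_
    rw [h1 i (Finset.ne_of_mem_erase hi)]
  rw [e1 τ, e1 τ', e2, h0, ← dv_qq X i0, dv_mul, dv_mul,
    dv_prod_zero X i0 (Finset.univ.erase i0) _
      (fun i hi => dv_qq_ne X i0 i (Finset.ne_of_mem_erase hi) _ _ _),
    dv_exp X i0 (fun a => (w.2.1 a : ℕ)) Finset.univ]
  have e3 : MvPolynomial.C (∑ a : Fin l, (((w.2.1 a : ℕ)) : ℂ) * X a i0) =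
      (MvPolynomial.C (th X w.2.1 i0) : MvPolynomial (Fin r ⊕ Fin l) ℂ) := rfl
  rw [e3]
  ring

theorem fold_eq {T0 T1 J : ℕ} (t : ℂ) (X : Matrix (Fin l) (Fin r) ℂ) (p : Un r l T0 T1 J → ℤ)
    (L : List (Fin r)) :
    L.foldr (fun i f => dv kap (om X i) f) (aux t p) =
      ∑ w : Un r l T0 T1 J, MvPolynomial.C ((p w : ℂ) * t ^ (w.2.2 : ℕ)) *
        Qp X w (fun i => L.count i) := by
  induction L with
  | nil =>
    rw [List.foldr_nil]
    unfold aux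
    refine Finset.sum_congr rfl fun w _ => ?_
    unfold Qp
    congr 2
    refine Finset.prod_congr rfl fun i _ => ?_
    simp [qq, bs, gg]
  | cons i0 L ih =>
    rw [List.foldr_cons, ih, map_sum]
    refine Finset.sum_congr rfl fun w _ => ?_
    rw [dv_C_mul, dv_Qp X w (fun i => L.count i) (fun i => (i0 :: L).count i) i0]
    · simp
    · intro i hi
      rw [List.count_cons_of_ne (Ne.symm hi)]

theorem eval_qq (x : Fin r ⊕ Fin l → ℂ) (μ : ℕ) (θ : ℂ) (τ : ℕ) (i : Fin r) :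
    MvPolynomial.eval x (qq μ θ τ i) = der μ θ τ (x (Sum.inl i)) := by
  unfold qq bs gg der
  rw [map_sum]
  refine Finset.sum_congr rfl fun κ _ => ?_
  simp only [map_mul, map_pow, map_natCast, MvPolynomial.eval_C, MvPolynomial.eval_X]
  ring

end

theorem pf_VAL : T_VAL := by
  intro r l c T0 T1 J t X Y p s L
  rw [fold_eq, map_sum]
  unfold vl
  refine Finset.sum_congr rfl fun w _ => ?_
  rw [map_mul, MvPolynomial.eval_C]
  unfold Qp
  rw [map_mul, map_prod, map_prod, Complex.exp_sum, mul_assoc (_ * _)]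
  congr 1
  rw [mul_comm]
  congr 1
  · refine Finset.prod_congr rfl fun a _ => ?_
    rw [map_pow, MvPolynomial.eval_X, Complex.exp_nat_mul]
    rfl
  · refine Finset.prod_congr rfl fun i _ => ?_
    rw [eval_qq]
    rfl

end

end Pool.Agent.H35.TD1
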